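import Pool.Agent.Lib.MP_2a260c_pr.Final
import Pool.Agent.Lib.MP_2a260c_pr.ExchMain

/-! # MP_2a260c_pr, Q1: the second largest component of the preferential attachment process without
vertex growth in the barely supercritical phase.

The process (`PA2a.law`, defined in `Pool/Agent/Lib/MP_2a260c_pr/Defs.lean`) starts with the empty graph
on `Fin n`; every step adds one edge between two distinct, non-adjacent vertices `v, w`, chosen with
probability proportional to `(d_v + α) (d_w + α)`. -/

namespace Pool.Agent.Results.MP_2a260c_pr.SecondComponent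

open Filter Topology PA2a

/-- For each `α > 0` there is `D > 0` such that for every sequence `ε` with `ε n → 0` and
`ε(n)^3 n → ∞`, with probability tending to `1` the second largest component of `G^α_{n,m}` with
`m = ⌊m_c (1 + ε)⌋`, `m_c = n α / (2 (α + 1))`, has at most `D ε^(-2) log (ε^3 n)` vertices. -/
theorem result : ∀ α : ℝ, 0 < α → ∃ D : ℝ, 0 < D ∧ ∀ ε : ℕ → ℝ,
    Tendsto ε atTop (𝓝 0) → Tendsto (fun n : ℕ => ε n ^ 3 * n) atTop atTop →
    Tendsto (fun n : ℕ => (law α n ⌊n * α / (2 * (α + 1)) * (1 + ε n)⌋₊).toOuterMeasure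
      {G | (L 2 G : ℝ) ≤ D * (ε n)⁻¹ ^ 2 * Real.log (ε n ^ 3 * n)}) atTop (𝓝 1) := by
  intro α hα
  exact final_of hα (exch hα)

end Pool.Agent.Results.MP_2a260c_pr.SecondComponent
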